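import Pool.Agent.H.MP_6350a9_co.Key
import Pool.Agent.H.MP_6350a9_co.Low
import Pool.Agent.H.MP_6350a9_co.Pump

namespace Pool.Agent.Results.MP_6350a9_co.Answer

open Pool.Agent.H.MP_6350a9_co

/-- number of padding zeros: the number of leading zeros of `v` if `v` contains a `1`, else `0` -/
def pad (v : List Bool) : ℕ := if true ∈ v then v.idxOf true else 0

/-- the padded binary expansion of `n`, most significant digit first -/
def expansion (v : List Bool) (n : ℕ) : List Bool :=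
  List.replicate (pad v) false ++ n.bits.reverse

/-- number of (overlapping) occurrences of `v` as a factor of the padded expansion of `n` -/
def e (v : List Bool) (n : ℕ) : ℕ :=
  ((Finset.range ((expansion v n).length + 1)).filter
    fun i => v <+: (expansion v n).drop i).card

/-- `A_v(n,d)` -/
noncomputable def A (v : List Bool) (n d : ℕ) : ℕ :=
  sInf {l : ℕ | 1 ≤ l ∧ ¬ e v (n + l * d) ≡ e v n [MOD 2]}

/-- `A_v(d)` -/
noncomputable def Amax (v : List Bool) (d : ℕ) : ℕ := sSup (Set.range fun n => A v n d)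

/-- the sequence `(a d)_{d ≥ 1}`, with value `0` at `d = 0`, is 2-regular -/
def Regular (a : ℕ → ℕ) : Prop :=
  (Submodule.span ℤ {u : ℕ → ℤ | ∃ e r : ℕ, r < 2 ^ e ∧
    u = fun n => ((if 2 ^ e * n + r = 0 then 0 else a (2 ^ e * n + r) : ℕ) : ℤ)}).FG

def wd (v : List Bool) (k : ℕ) : Bool := v.reverse.getD k false

lemma len_exp (v : List Bool) (n : ℕ) : (expansion v n).length = n.size + pad v := by
  simp [expansion, Nat.size_eq_bits_len, add_comm]

lemma rev_get (v : List Bool) (n j : ℕ) : (expansion v n).reverse.getD j false = n.testBit j := by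
  rw [Nat.testBit_eq_inth, expansion, List.reverse_append, List.reverse_reverse,
    List.reverse_replicate, List.getI_eq_getElem?_getD, List.getD_eq_getElem?_getD,
    List.getElem?_append]
  split_ifs with h
  · rfl
  · rw [List.getElem?_eq_none (not_lt.1 h), List.getElem?_replicate]
    split_ifs <;> rfl

lemma occ (v l : List Bool) (i : ℕ) (hi : i + v.length ≤ l.length) :
    v <+: l.drop (l.length - v.length - i) ↔
      ∀ k, k < v.length → l.reverse.getD (i + k) false = v.reverse.getD k false := by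
  rw [List.prefix_iff_getElem]
  constructor
  · rintro ⟨h1, h2⟩ k hk
    have := h2 (v.length - 1 - k) (by omega)
    rw [List.getElem_drop] at this
    rw [List.getD_eq_getElem _ _ (by simp; omega), List.getD_eq_getElem _ _ (by simpa using hk),
      List.getElem_reverse, List.getElem_reverse, this]
    congr 1
    omega
  · intro h
    refine ⟨by simp; omega, fun k hk => ?_⟩
    have := h (v.length - 1 - k) (by omega)
    rw [List.getD_eq_getElem _ _ (by simp; omega), List.getD_eq_getElem _ _ (by simp; omega),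
      List.getElem_reverse, List.getElem_reverse] at this
    rw [List.getElem_drop]
    refine Eq.trans ?_ (this.symm.trans ?_)
    · congr 1
      omega
    · congr 1
      omega

lemma e_eq (v : List Bool) (n : ℕ) :
    (e v n : ZMod 2) = Φ v.length (wd v) (n.size + pad v + 1 - v.length) n := by
  classical
  unfold Φ e
  rw [Finset.sum_boole, ← len_exp]
  congr 1
  symm
  refine Finset.card_bij (fun i _ => (expansion v n).length - v.length - i) ?_ ?_ ?_
  · intro i hi
    rw [Finset.mem_filter, Finset.mem_range] at hi ⊢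
    refine ⟨by omega, (occ v _ i (by omega)).2 fun k hk => ?_⟩
    rw [rev_get]
    exact hi.2 k hk
  · intro i hi j hj h
    rw [Finset.mem_filter, Finset.mem_range] at hi hj
    omega
  · intro j hj
    rw [Finset.mem_filter, Finset.mem_range] at hj
    have h1 := hj.2.length_le
    rw [List.length_drop] at h1
    have h2 : (expansion v n).length - v.length - ((expansion v n).length - v.length - j) = j := by
      omega
    refine ⟨(expansion v n).length - v.length - j, ?_, h2⟩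
    rw [Finset.mem_filter, Finset.mem_range]
    refine ⟨by omega, fun k hk => ?_⟩
    rw [← rev_get v]
    exact (occ v _ _ (by omega)).1 (by rw [h2]; exact hj.2) k hk

lemma col (v : List Bool) (a b : ℕ) :
    e v a ≡ e v b [MOD 2] ↔ (e v a : ZMod 2) = (e v b : ZMod 2) :=
  (ZMod.natCast_eq_natCast_iff _ _ _).symm

lemma wd_one {v : List Bool} (h : true ∈ v) :
    pad v < v.length ∧ wd v (v.length - 1 - pad v) = true := by
  have h1 : v.idxOf true < v.length := List.idxOf_lt_length_of_mem h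
  simp only [pad, if_pos h]
  refine ⟨h1, ?_⟩
  rw [wd, List.getD_eq_getElem _ _ (by simp; omega), List.getElem_reverse]
  refine Eq.trans ?_ (List.getElem_idxOf h1)
  congr 1
  omega

lemma wd_zero {v : List Bool} (h : true ∉ v) (k : ℕ) (hk : k < v.length) : wd v k = false := by
  rw [wd, List.getD_eq_getElem _ _ (by simpa using hk), List.getElem_reverse]
  by_contra h1
  rw [Bool.not_eq_false] at h1
  exact h (h1 ▸ List.getElem_mem _)

lemma upper {v : List Bool} (hv : v ≠ []) {b T1 T2 y0 y1 : ℕ} (hb : 3 * v.length + 5 ≤ b)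
    (h1 : 4 * b + 6 ≤ T1) (h2 : 4 * b + 6 ≤ T2)
    (hy : (y0 = 2 ^ b + 1 ∧ y1 = 1) ∨ (y0 = 1 ∧ y1 = 2 ^ b + 1)) (n : ℕ) :
    ∃ l, l ≤ 40 * 2 ^ (3 * b) ∧ l ∈ {l : ℕ | 1 ≤ l ∧
      ¬ e v (n + l * (2 ^ v.length * (y0 + 2 ^ T1 * (y1 + 2 ^ T2)))) ≡ e v n [MOD 2]} := by
  have hb' : ∃ x, 2 * x < 2 ^ (v.length + 3) ∧ ∀ s M, v.length ≤ s → s + v.length + 4 ≤ M →
      Φ v.length (wd v) M (2 ^ s * (2 * x)) + Φ v.length (wd v) M 0 = 1 := by
    by_cases h : true ∈ v
    · have := wd_one h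
      exact base_one ⟨_, by omega, this.2⟩
    · exact base_zero (List.length_pos_iff.2 hv) (wd_zero h)
  obtain ⟨x, hx, base⟩ := hb'
  obtain ⟨l, l1, l2, l3⟩ := key (fun n => (e v n : ZMod 2)) (fun s => s + pad v + 1 - v.length)
    (fun s => by omega) (e_eq v) hx base hb h1 h2 hy n
  exact ⟨l, l2, l1, by rw [col]; exact l3⟩

lemma A_le {v : List Bool} (hv : v ≠ []) {b T1 T2 y0 y1 : ℕ} (hb : 3 * v.length + 5 ≤ b)
    (h1 : 4 * b + 6 ≤ T1) (h2 : 4 * b + 6 ≤ T2)
    (hy : (y0 = 2 ^ b + 1 ∧ y1 = 1) ∨ (y0 = 1 ∧ y1 = 2 ^ b + 1)) (n : ℕ) :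
    A v n (2 ^ v.length * (y0 + 2 ^ T1 * (y1 + 2 ^ T2))) ≤ 40 * 2 ^ (3 * b) := by
  obtain ⟨l, l1, l2⟩ := upper hv hb h1 h2 hy n
  exact (Nat.sInf_le l2).trans l1

lemma le_A {v : List Bool} (hv : v ≠ []) {b T1 T2 β : ℕ} (hb : 3 * v.length + 5 ≤ b)
    (h1 : 4 * b + 6 ≤ T1) (h2 : 4 * b + 6 ≤ T2) (n : ℕ)
    (h : ∀ l, l < 2 ^ β → (e v (n + l * (2 ^ v.length * (1 + 2 ^ T1 * ((2 ^ b + 1) + 2 ^ T2)))) :
      ZMod 2) = e v n) :
    2 ^ β ≤ A v n (2 ^ v.length * (1 + 2 ^ T1 * ((2 ^ b + 1) + 2 ^ T2))) := by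
  obtain ⟨l, -, l2⟩ := upper hv hb h1 h2 (Or.inr ⟨rfl, rfl⟩) n
  have := Nat.sInf_mem ⟨l, l2⟩
  by_contra hc
  exact this.2 ((col _ _ _).2 (h _ (not_le.1 hc)))

lemma inv {v : List Bool} (h : true ∈ v) (N M : ℕ) (hM : N.size + pad v + 1 ≤ M) :
    (e v N : ZMod 2) = Φ v.length (wd v) M N := by
  rw [e_eq]
  unfold Φ
  refine Finset.sum_subset (Finset.range_subset_range.2 (by omega)) fun i _ hi => if_neg fun hm => ?_
  obtain ⟨h1, h2⟩ := wd_one h
  have h3 := hm (v.length - 1 - pad v) (by omega)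
  rw [h2] at h3
  have h4 := Nat.lt_size.2 (Nat.ge_two_pow_of_testBit h3)
  rw [Finset.mem_range] at hi
  omega

lemma nonreg (g : ℕ) (a : ℕ → ℕ)
    (U : ∀ b T1 T2 y0 y1, 3 * g + 5 ≤ b → 4 * b + 6 ≤ T1 → 4 * b + 6 ≤ T2 →
      ((y0 = 2 ^ b + 1 ∧ y1 = 1) ∨ (y0 = 1 ∧ y1 = 2 ^ b + 1)) →
      a (2 ^ g * (y0 + 2 ^ T1 * (y1 + 2 ^ T2))) ≤ 40 * 2 ^ (3 * b))
    (L : ∀ b T1 T2 β, 3 * g + 5 ≤ b → 4 * b + 6 ≤ T1 → 4 * b + 6 ≤ T2 → g + β ≤ b →
      2 ^ β ≤ a (2 ^ g * (1 + 2 ^ T1 * ((2 ^ b + 1) + 2 ^ T2)))) : ¬ Regular a := by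
  refine pump g (fun n => if n = 0 then 0 else a n) ?_ ?_
  · intro b T1 T2 y0 y1 hb h1 h2 hy
    rw [if_neg (by positivity)]
    exact U _ _ _ _ _ hb h1 h2 hy
  · intro b T1 T2 β hb h1 h2 hβ
    rw [if_neg (by positivity)]
    exact L _ _ _ _ hb h1 h2 hβ

lemma partb {v : List Bool} (hv : v ≠ []) : ¬ Regular (Amax v) := by
  refine nonreg v.length _ ?_ ?_
  · intro b T1 T2 y0 y1 hb h1 h2 hy
    refine csSup_le (Set.range_nonempty _) ?_
    rintro _ ⟨n, rfl⟩
    exact A_le hv hb h1 h2 hy n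
  · intro b T1 T2 β hb h1 h2 hβ
    refine le_csSup_of_le ⟨40 * 2 ^ (3 * b), ?_⟩ ⟨2 ^ (T1 + T2 + b + v.length) * 4, rfl⟩ ?_
    · rintro _ ⟨n, rfl⟩
      exact A_le hv hb h1 h2 (Or.inr ⟨rfl, rfl⟩) n
    · refine le_A hv hb h1 h2 _ fun l hl => ?_
      have hs : ∀ u, u < 2 ^ (T1 + T2 + b + v.length) * 4 →
          (2 ^ (T1 + T2 + b + v.length) * 4 + u).size = T1 + T2 + b + v.length + 3 := by
        intro u hu
        apply le_antisymm
        · rw [Nat.size_le, pow_add _ _ 3]; omega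
        · rw [Nat.succ_le_iff, Nat.lt_size, pow_add _ _ 2]; omega
      have hd : l * (2 ^ v.length * (1 + 2 ^ T1 * ((2 ^ b + 1) + 2 ^ T2))) <
          2 ^ (T1 + T2 + b + v.length) * 4 := by
        have a1 : 2 ^ b ≤ 2 ^ T2 := Nat.pow_le_pow_right (by norm_num) (by omega)
        have a2 : 2 ^ β ≤ 2 ^ b := Nat.pow_le_pow_right (by norm_num) (by omega)
        have a3 : 1 ≤ 2 ^ T1 := Nat.one_le_two_pow
        have a4 : 1 ≤ 2 ^ b := Nat.one_le_two_pow
        have a5 : 1 + 2 ^ T1 * ((2 ^ b + 1) + 2 ^ T2) ≤ 2 ^ T1 * (4 * 2 ^ T2) := by nlinarith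
        calc _ < 2 ^ b * (2 ^ v.length * (1 + 2 ^ T1 * ((2 ^ b + 1) + 2 ^ T2))) :=
              Nat.mul_lt_mul_of_pos_right (by omega) (by positivity)
          _ ≤ 2 ^ b * (2 ^ v.length * (2 ^ T1 * (4 * 2 ^ T2))) := by gcongr
          _ = _ := by ring
      have h0 := hs 0 (by positivity)
      rw [add_zero] at h0
      rw [e_eq, e_eq, hs _ hd, h0]
      exact four _ (by omega) (by omega) hβ hl (by omega)

lemma parta {v : List Bool} (h : true ∈ v) : ¬ Regular (fun d => A v 0 d) := by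
  have hv : v ≠ [] := List.ne_nil_of_mem h
  refine nonreg v.length _ (fun b T1 T2 y0 y1 hb h1 h2 hy => A_le hv hb h1 h2 hy 0) ?_
  intro b T1 T2 β hb h1 h2 hβ
  refine le_A hv hb h1 h2 _ fun l hl => ?_
  have := four (g := v.length) (w := wd v) (R := 0)
    ((0 + l * (2 ^ v.length * (1 + 2 ^ T1 * ((2 ^ b + 1) + 2 ^ T2)))).size + pad v + 1 +
      (T1 + T2 + b)) (T1 := T1) (T2 := T2) (by omega) (by omega) hβ hl (by omega)
  rw [mul_zero] at this
  rw [inv h _ _ (Nat.le_add_right _ (T1 + T2 + b)), this]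
  exact (inv h 0 _ (by rw [Nat.size_zero]; omega)).symm

lemma step {v : List Bool} (h : true ∉ v) (hv : v ≠ []) (N : ℕ) (hN : N ≠ 0) :
    (e v N : ZMod 2) = e v (N / 2) + if N % 2 ^ v.length = 0 then 1 else 0 := by
  have hg := List.length_pos_iff.2 hv
  have hp : pad v = 0 := by simp [pad, h]
  have hs : N.size = (N / 2).size + 1 := by
    apply le_antisymm
    · rw [Nat.size_le, pow_succ]
      have := Nat.lt_size_self (N / 2)
      omega
    · rw [Nat.succ_le_iff, Nat.lt_size]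
      rcases Nat.eq_zero_or_pos (N / 2).size with h0 | h0
      · rw [h0]; omega
      · obtain ⟨s, hs⟩ : ∃ s, (N / 2).size = s + 1 := ⟨(N / 2).size - 1, by omega⟩
        have := Nat.lt_size.1 (show s < (N / 2).size by omega)
        rw [hs, pow_succ]
        omega
  rw [e_eq, e_eq, hp, hs]
  by_cases hc : v.length ≤ (N / 2).size + 1
  · rw [show (N / 2).size + 1 + 0 + 1 - v.length = ((N / 2).size + 0 + 1 - v.length) + 1 by omega]
    unfold Φ
    rw [Finset.sum_range_succ']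
    have h1 : ∀ i, Pool.Agent.H.MP_6350a9_co.mt v.length (wd v) N (i + 1) ↔
        Pool.Agent.H.MP_6350a9_co.mt v.length (wd v) (N / 2) i := by
      intro i
      refine forall_congr' fun k => forall_congr' fun _ => ?_
      rw [show i + 1 + k = (i + k) + 1 by ring, Nat.testBit_succ]
    have h2 : Pool.Agent.H.MP_6350a9_co.mt v.length (wd v) N 0 ↔ N % 2 ^ v.length = 0 := by
      constructor
      · intro hm
        refine Nat.eq_of_testBit_eq fun k => ?_
        rw [Nat.testBit_mod_two_pow, Nat.zero_testBit]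
        by_cases hk : k < v.length
        · have := hm k hk
          rw [zero_add, wd_zero h k hk] at this
          simp [this]
        · simp [hk]
      · intro hm k hk
        rw [zero_add, wd_zero h k hk, tb_mod (H' := 0) (by simpa using hm) hk, Nat.zero_testBit]
    congr 1
    · exact Finset.sum_congr rfl fun i _ => by rw [h1 i]
    · simp only [h2]
  · have h1 : N < 2 ^ v.length := Nat.size_le.1 (by omega)
    rw [Nat.mod_eq_of_lt h1, if_neg hN, show (N / 2).size + 1 + 0 + 1 - v.length = 0 by omega,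
      show (N / 2).size + 0 + 1 - v.length = 0 by omega]
    simp [Φ]

/-- the finite state -/
def st (v : List Bool) (N : ℕ) : ZMod 2 × ZMod (2 ^ v.length) × Bool :=
  (e v N, N, decide (N = 0))

lemma st_step {v : List Bool} (h : true ∉ v) (hv : v ≠ []) {y y' : ℕ} (hy : st v y = st v y')
    (c : ℕ) (hc : c < 2) : st v (2 * y + c) = st v (2 * y' + c) := by
  simp only [st, Prod.mk.injEq, decide_eq_decide] at hy ⊢
  obtain ⟨h1, h2, h3⟩ := hy
  have h4 : ((2 * y + c : ℕ) : ZMod (2 ^ v.length)) = (2 * y' + c : ℕ) := by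
    push_cast; rw [h2]
  refine ⟨?_, h4, by omega⟩
  by_cases h0 : 2 * y + c = 0
  · rw [h0, show 2 * y' + c = 0 by omega]
  · rw [step h hv _ h0, step h hv (2 * y' + c) (by omega), show (2 * y + c) / 2 = y by omega,
      show (2 * y' + c) / 2 = y' by omega, h1, (ZMod.natCast_eq_natCast_iff' _ _ _).1 h4]

lemma st_pow {v : List Bool} (h : true ∉ v) (hv : v ≠ []) {y y' : ℕ} (hy : st v y = st v y')
    (k : ℕ) : ∀ r, r < 2 ^ k → st v (2 ^ k * y + r) = st v (2 ^ k * y' + r) := by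
  induction k with
  | zero =>
    intro r hr
    obtain rfl : r = 0 := by omega
    simpa using hy
  | succ k ih =>
    intro r hr
    have := st_step h hv (ih (r / 2) (by rw [pow_succ] at hr; omega)) (r % 2) (by omega)
    have e1 : ∀ y, 2 * (2 ^ k * y + r / 2) + r % 2 = 2 ^ (k + 1) * y + r := by
      intro y
      have := Nat.div_add_mod r 2
      rw [pow_succ', mul_assoc]
      omega
    rwa [e1, e1] at this

lemma hit {v : List Bool} (h : true ∉ v) (hv : v ≠ []) {d : ℕ} (hd : d ≠ 0) :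
    ∃ l, l ≤ 2 ^ v.length ∧ l ∈ {l : ℕ | 1 ≤ l ∧ ¬ e v (0 + l * d) ≡ e v 0 [MOD 2]} := by
  obtain ⟨k, hk⟩ : ∃ k, v.length = k + 1 := ⟨v.length - 1, by
    have := List.length_pos_iff.2 hv
    omega⟩
  have h1 := step h hv (2 ^ v.length * d) (by positivity)
  rw [if_pos (by simp), show 2 ^ v.length * d / 2 = 2 ^ k * d by
    rw [hk, pow_succ', mul_assoc]; omega] at h1
  by_cases h2 : (e v (2 ^ k * d) : ZMod 2) = e v 0
  · refine ⟨2 ^ v.length, le_rfl, Nat.one_le_two_pow, ?_⟩
    rw [col, zero_add, h1, h2]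
    simp
  · refine ⟨2 ^ k, Nat.pow_le_pow_right (by norm_num) (by omega), Nat.one_le_two_pow, ?_⟩
    rw [col, zero_add]
    exact h2

lemma A_dep {v : List Bool} (h : true ∉ v) (hv : v ≠ []) {d d' : ℕ} (hd : d ≠ 0)
    (H : ∀ l, l ≤ 2 ^ v.length → st v (l * d) = st v (l * d')) : A v 0 d' ≤ A v 0 d := by
  obtain ⟨l, l1, l2⟩ := hit h hv hd
  have h1 : A v 0 d ≤ 2 ^ v.length := (Nat.sInf_le l2).trans l1
  have h2 := Nat.sInf_mem ⟨l, l2⟩
  refine Nat.sInf_le ⟨h2.1, ?_⟩
  have h3 : (e v (A v 0 d * d) : ZMod 2) = e v (A v 0 d * d') := congrArg Prod.fst (H _ h1)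
  have h4 := h2.2
  rw [col, zero_add] at h4 ⊢
  rw [← h3]
  exact h4

lemma reg {v : List Bool} (h : true ∉ v) (hv : v ≠ []) : Regular (fun d => A v 0 d) := by
  classical
  have : NeZero (2 ^ v.length) := ⟨by positivity⟩
  let S : ℕ → (Fin (2 ^ v.length + 1) → Fin (2 ^ v.length + 1) →
      ZMod 2 × ZMod (2 ^ v.length) × Bool) := fun n l c => st v (l * n + c)
  refine Submodule.fg_span ((Set.finite_range fun (f : (Fin (2 ^ v.length + 1) →
      Fin (2 ^ v.length + 1) → ZMod 2 × ZMod (2 ^ v.length) × Bool) → Fin (2 ^ v.length + 1)) =>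
      fun n => (((f (S n) : ℕ) : ℤ))).subset ?_)
  rintro _ ⟨k, r, hr, rfl⟩
  have hb : ∀ d, (if d = 0 then 0 else A v 0 d) < 2 ^ v.length + 1 := by
    intro d
    split_ifs with hd
    · positivity
    · obtain ⟨l, l1, l2⟩ := hit h hv hd
      exact Nat.lt_succ_of_le ((Nat.sInf_le l2).trans l1)
  let a : ℕ → Fin (2 ^ v.length + 1) := fun n => ⟨_, hb (2 ^ k * n + r)⟩
  have hf : a.FactorsThrough S := by
    intro n n' hn
    have H : ∀ l, l ≤ 2 ^ v.length → st v (l * (2 ^ k * n + r)) = st v (l * (2 ^ k * n' + r)) := by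
      intro l hl
      have hc : l * r / 2 ^ k ≤ l := Nat.div_le_of_le_mul (by nlinarith)
      have := st_pow h hv (congrFun (congrFun hn ⟨l, by omega⟩) ⟨l * r / 2 ^ k, by omega⟩) k
        (l * r % 2 ^ k) (Nat.mod_lt _ (by positivity))
      have e1 : ∀ n, 2 ^ k * (l * n + l * r / 2 ^ k) + l * r % 2 ^ k = l * (2 ^ k * n + r) := by
        intro n
        have := Nat.div_add_mod (l * r) (2 ^ k)
        rw [mul_add, add_assoc, this]
        ring
      simp only [e1] at this
      exact this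
    have H1 := H 1 Nat.one_le_two_pow
    simp only [st, one_mul, Prod.mk.injEq, decide_eq_decide] at H1
    apply Fin.ext
    change (if 2 ^ k * n + r = 0 then 0 else A v 0 (2 ^ k * n + r)) =
      (if 2 ^ k * n' + r = 0 then 0 else A v 0 (2 ^ k * n' + r))
    by_cases h0 : 2 ^ k * n + r = 0
    · rw [if_pos h0, if_pos (H1.2.2.1 h0)]
    · have h0' : 2 ^ k * n' + r ≠ 0 := fun h => h0 (H1.2.2.2 h)
      rw [if_neg h0, if_neg h0']
      exact le_antisymm (A_dep h hv h0' fun l hl => (H l hl).symm) (A_dep h hv h0 H)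
  refine ⟨Function.extend S a (fun _ => 0), funext fun n => ?_⟩
  simp only [hf.extend_apply]
  rfl

theorem result (v : List Bool) (hv : v ≠ []) :
    (Regular (fun d => A v 0 d) ↔ true ∉ v) ∧ ¬ Regular (Amax v) :=
  ⟨⟨fun hr h => parta h hr, fun h => reg h hv⟩, partb hv⟩

end Pool.Agent.Results.MP_6350a9_co.Answer
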